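import Mathlib
import Pool.Agent.H645R3.VB8

set_option autoImplicit false

/-!
# Vojta's inequality for points of degree `r` on the projective line, outside a sparse set

`X = ℙ¹` over `ℚ`, `D` a sum of `q` distinct rational points, `S` a finite set of primes (together
with the archimedean place, `s = #S + 1` places), `x` an algebraic number of degree exactly `r`.
We count the points of degree `r` and absolute height at most `exp T` whose proximity to `D` is at
least `κ h(x) - c`.  For `κ = 2` these are the only points which can violate Vojta's inequality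
`h_K(x) + ∑_{v ∈ S} λ_D(x, v) ≤ ε h_A(x) + d(x) + O(1)`, `h_K = - 2 h`.
-/

namespace Pool.Agent.Results.MP_71c16a_nt.DegreePoints

open NumberField IntermediateField

/-- The local Weil function of the point `(a₁ : a₂)` at a place `v`, in terms of `u = |y|_v` and
`t = |a₁ - a₂ y|_v` (the absolute values of the places include the local degree). -/
noncomputable def lam (u t : ℝ) : ℝ := Real.log (max 1 u / t)

/-- The proximity function `m_S(D, y) = ∑_{v ∈ S} λ_D(y, v)` of an element `y` of a number field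
`L`, relative to `ℚ`: the sum over the infinite places of `L` and over the finite places of `L`
above the primes in `S`, divided by `[L : ℚ]`. -/
noncomputable def proxL (S : Finset ℕ) (D : Finset (ℤ × ℤ)) {L : Type} [Field L] [NumberField L]
    (y : L) : ℝ :=
  ((∑ v : InfinitePlace L, v.mult * ∑ a ∈ D, lam (v y) (v ((a.1 : L) - a.2 * y))) +
    ∑ᶠ w ∈ {w : FinitePlace L | ∃ p ∈ S, w (p : L) < 1},
      ∑ a ∈ D, lam (w y) (w ((a.1 : L) - a.2 * y))) / Module.finrank ℚ L

open Classical in
/-- The proximity function of an algebraic number `x`, computed in `ℚ(x)`. -/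
noncomputable def prox (S : Finset ℕ) (D : Finset (ℤ × ℤ)) (x : ℂ) : ℝ :=
  if hx : IsIntegral ℚ x then
    haveI : FiniteDimensional ℚ ℚ⟮x⟯ := adjoin.finiteDimensional hx
    haveI : NumberField ℚ⟮x⟯ := {}
    proxL S D (AdjoinSimple.gen ℚ x)
  else 0

/-- The algebraic numbers `x` of degree `r` and absolute logarithmic height at most `T`, outside
`D`, with `m_S(D, x) ≥ κ h(x) - c`. -/
def Near (r : ℕ) (S : Finset ℕ) (D : Finset (ℤ × ℤ)) (κ c T : ℝ) : Set ℂ :=
  {x : ℂ | IsIntegral ℚ x ∧ (minpoly ℚ x).natDegree = r ∧ absLogHeight₁ x ≤ T ∧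
    (∀ a ∈ D, (a.1 : ℂ) ≠ a.2 * x) ∧ κ * absLogHeight₁ x - c ≤ prox S D x}

/-- **Points of degree `r` with large proximity.**  Let `r ≥ 1`, let `S` be a finite set of primes,
`D` a set of `q` distinct rational points `(a₁ : a₂)` of the projective line and
`0 ≤ κ ≤ r + 1`.  For all `c` and `δ > 0` there is `C` such that for every `T ≥ 0` there are at most
`C * exp ((r * (r + 1 - κ * min 1 ((r + 1) / min q (r * s))) + δ) * T)` algebraic numbers `x` of
degree `r` and height `h(x) ≤ T` with `m_S(D, x) ≥ κ h(x) - c`; here `s = #S + 1`. -/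
theorem result (r : ℕ) (hr : 1 ≤ r) (S : Finset ℕ) (hS : ∀ p ∈ S, p.Prime) (D : Finset (ℤ × ℤ))
    (hD0 : ∀ a ∈ D, a ≠ (0, 0))
    (hD : ∀ a ∈ D, ∀ b ∈ D, a ≠ b → a.1 * b.2 ≠ a.2 * b.1) (κ : ℝ) (hκ : 0 ≤ κ)
    (hκ1 : κ ≤ r + 1) (c δ : ℝ) (hδ : 0 < δ) :
    ∃ C : ℝ, 0 < C ∧ ∀ T : ℝ, 0 ≤ T → (Near r S D κ c T).Finite ∧
      ((Near r S D κ c T).ncard : ℝ) ≤ C * Real.exp
        ((r * ((r + 1 : ℝ) - κ * min 1 ((r + 1 : ℝ) / ((min D.card (r * (S.card + 1)) : ℕ) : ℝ)))
          + δ) * T) :=
  H645.VB.main r hr S hS D hD0 hD κ hκ hκ1 c δ hδ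

end Pool.Agent.Results.MP_71c16a_nt.DegreePoints
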